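import Mathlib

set_option autoImplicit false

/-!
The orthogonality graph of the 120 lines spanned by the roots of `E8` is strongly regular with
parameters `(120, 63, 30, 36)`; its quantum chromatic number is `8` and its chromatic number is at
least `15`.
-/

namespace Pool.Agent.Results.MP_75a6b7_co.E8Graph

/-! ### Definitions used in the statement -/

/-- A quantum `c`-colouring of `G` in dimension `d`: orthogonal projections `P v i` on `ℂ ^ d`
(Hermitian idempotent `d × d` matrices), summing to the identity over the colours `i` for every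
vertex `v`, and with `P v i * P w i = 0` for every edge `v w` and every colour `i`. -/
structure QuantumColoring {V : Type} (G : SimpleGraph V) (c d : ℕ) where
  P : V → Fin c → Matrix (Fin d) (Fin d) ℂ
  isHermitian : ∀ v i, (P v i).IsHermitian
  isIdempotent : ∀ v i, P v i * P v i = P v i
  sum_eq_one : ∀ v, ∑ i, P v i = 1
  orthogonal : ∀ v w, G.Adj v w → ∀ i, P v i * P w i = 0

/-- The quantum chromatic number: the least `c ≥ 1` for which a quantum `c`-colouring exists in
some dimension `d ≥ 1`. -/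
noncomputable def quantumChromaticNumber {V : Type} (G : SimpleGraph V) : ℕ∞ :=
  ⨅ c ∈ {c : ℕ | 1 ≤ c ∧ ∃ d : ℕ, 1 ≤ d ∧ Nonempty (QuantumColoring G c d)}, (c : ℕ∞)

/-! ### The graph -/

/-- Adjacency bits: bit `120 * i + j` says whether `i` and `j` are adjacent. -/
def adjBits : ℕ :=
  0x117177e177e7ee859a6a6a9aaa555022b2bbd2bbdbdd46669a9aa6a9955044d4ddb4ddbdbb2969a6a6a9a9655088e8ee78ee7e771a95565695aaa55107171e771e7e78ea95a9a9aa6959520b2b2dbb2dbdb4d9695959966a99540d4d4bdd4bdbd2b6666565996a69580e8e87ee87e7e1759a9595a569a9517017e177e17e87eaaa55aa6a995652b02bd2bbd2bd4bd956a55a569a9654d04db4ddb4db2db6599966599a6658e08e78ee78e71e75a569966599a657110e771e7718ee75a596695a5a5a5b220dbb2dbb24ddb659669966599a5d440bdd4bdd42bbd9565aa569596a5e8807ee87ee8177eaaaaa55555aaa5177e01177ee8177eaaaaa556aa55592bbd022bbdd42bbd9565aa556a69594ddb044ddbb24ddb659669959a66598ee7088ee7718ee75a5966965a5a5971e71071e78e71e75a569965a66599b2db20b2db4db2db65999666665999d4bd40d4bd2bd4bd956a55a6965699e87e80e87e17e87eaaa55aa5566a99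7e171701e87e7e1759a95959a96569bd2b2b02d4bdbd2b6666565a695969db4d4d04b2dbdb4d9695959a995669e78e8e0871e7e78ea95a9a99596a69e77171108ee7e771a955656aa555a9dbb2b2204ddbdbb2969a6a696569a9bdd4d4402bbdbdd46669a9a99566a97ee8e880177e7ee859a6a6aa555aa9177e7ee80117177eaaaaaaa95555562bbdbdd4022b2bbd9565a5aa9569564ddbdbb2044d4ddb6596666a6566568ee7e771088e8ee75a596969a55a5671e7e78e107171e75a56969a596596b2dbdb4d20b2b2db65999999995996d4bdbd2b40d4d4bd956a5a59695696e87e7e1780e8e87eaaa5555aa96a967e17e87e17017e1759a956a6566566bd2bd4bd2b02bd2b666659a5965966db4db2db4d04db4d96959a65665666e78e71e78e08e78ea95a9566a66a66e7718ee77110e771a9556a955a55a6dbb24ddbb220dbb2969a65969a69a6bdd42bbdd440bdd46669a6566a66a67ee8177ee8807ee859a6a955aa5aa67ee8177e177e011759a6a95655a55abdd42bbd2bbd022b6669a65595995adbb24ddb4ddb044d969a659565965ae7718ee78ee7088ea9556a96a5aa5ae78e71e771e71071a95a956559959adb4db2dbb2db20b296959a6699a99abd2bd4bdd4bd40d4666659a669a69a7e17e87ee87e80e859a956a5a99a9ae87e7e177e171701aaa5555956956ad4bdbd2bbd2b2b02956a5a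5a96a96ab2dbdb4ddb4d4d046599999a66a66a71e7e78ee78e8e085a569699a69a6a8ee7e771e77171105a59696a5aa5aa4ddbdbb2dbb2b220659666699a99aa2bbdbdd4bdd4d4409565a5a96a96aa177e7ee87ee8e880aaaaaaaaaaaaaa3cc3c33cc33c3cc34030f0fc3fc3ffc33c3cc33cc3c33c8030f0fc3fc3ff5aa5a55aa55a5aa510c3333ccfccffa55a5aa55aa5a55a20c3333ccfccff9999999999999999070c3c3f0ff0ff66666666666666660b0c3c3f0ff0ff66999966996666990d03c3ccf3cf3f99666699669999660e03c3ccf3cf3fa5a5a5a5a5a5a5a5304ccccf33f33f5a5a5a5a5a5a5a5a308ccccf33f33fc3c3c3c3c3c3c3c3c01f0f0fc3fc3f3c3c3c3c3c3c3c3cc02f0f0fc3fc3f69699696969669690cf403f0fccfcf96966969696996960cf803f0fccfcfaa55aa55aa55aa5533310cf33cf3cf55aa55aa55aa55aa33320cf33cf3cfcc33cc33cc33cc33c3c04f33ccfccf33cc33cc33cc33ccc3c08f33ccfccff00ff00ff00ff00ffc001fc3f0ff0f0ff00ff00ff00ff0fc002fc3f0ff0f69966996966996690cf3f400ff0ff396699669699669960cf3f800ff0ff3aaaa5555aaaa5555333cf1033f33f35555aaaa5555aaaa333cf2033f33f3cccc3333cccc3333c3cf3043cf3cf33333cccc3333ccccc3cf3083cf3cf3f0f00f0ff0f00f0ffc0fc013f33f330f0ff0f00f0ff0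f0fc0fc023f33f33ff0000ffff0000fffff00007fc3fc300ffff0000ffff00fff0000bfc3fc369969669699696690cf3f3fd000ffc96696996966969960cf3f3fe000ffcaaaaaaaa55555555333cfcfc4033fc55555555aaaaaaaa333cfcfc8033fccccccccc33333333c3cf3f3c103cfc33333333ccccccccc3cf3f3c203cfcf0f0f0f00f0f0f0ffc0fcfcc043f3c0f0f0f0ff0f0f0f0fc0fcfcc083f3cff00ff0000ff00fffff00ff0013fcc00ff00ffff00ff00fff00ff0023fccffff00000000fffffffff000007ff00000ffffffff0000fffff00000bff096696996699696690cf3f3fcffd00069969669966969960cf3f3fcffe0005555555555555555333cfcff3fc400aaaaaaaaaaaaaaaa333cfcff3fc8003333333333333333c3cf3f3fcfc100ccccccccccccccccc3cf3f3fcfc2000f0f0f0f0f0f0f0ffc0fcfcff3c040f0f0f0f0f0f0f0f0fc0fcfcff3c08000ff00ff00ff00fffff00ff3fcc010ff00ff00ff00ff00fff00ff3fcc0200000ffff0000fffffffff003ff0004ffff0000ffff0000fffff003ff000800000000fffffffffffffffc000001ffffffff00000000fffffffc000002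

/-- Octal digits of the root coordinates (shifted by two). -/
def rootBits : ℕ :=
  0x64924b2c924b25924b6d924b24b24b6cb24b65b24b2db24b24964b6c964b65964b2d964b64b64b2cb64b25b64b6db64b2492cb6c92cb6592cb2d92cb64b2cb2cb2cb25b2cb6db2cb6496cb2c96cb2596cb6d96cb24b6cb6cb6cb65b6cb2db6cb24925b6c925b65925b2d925b64b25b2cb25b25b25b6db25b64965b2c965b25965b6d965b24b65b6cb65b65b65b2db65b6492db2c92db2592db6d92db24b2db6cb2db65b2db2db2db2496db6c96db6596db2d96db64b6db2cb6db25b6db6db6db1124929124920a24928a24924224925224920944928944924144925144924844924a44920928928928924128925128924828924a28924908924948920925128925124125125125124825124a25124905124945124921124929120924a28924a24124a25124a24824a24a24a24904a24944a24920a24928a24924224925220924948924944124945124944824944a24944904944944944920944928944924144925144924844924a4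

/-- Codes of the roots modulo two, in a hyperbolic basis. -/
def codeBits : ℕ :=
  0x5734398d3a8e83e00bbfb2d1b1d2df6b27939efd9dfef347accfc276c175781b97232e4d2d4e43f71c7f72c671c5c8ab30535eea5de9e4876cd8d5b6d6b5b80c63b46eb90dda6dba0ed903d45c8b3fe832e531e670a713c41ec91dca2cfbc017a374ae79ad7a9c4bb0678c5bef38e235e136d007fc2b4c9b

/-- Table of the numbers of ones in the bytes, as hexadecimal digits. -/
def byteBits : ℕ :=
  0x8776766576656554766565546554544376656554655454436554544354434332766565546554544365545443544343326554544354434332544343324332322176656554655454436554544354434332655454435443433254434332433232216554544354434332544343324332322154434332433232214332322132212110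

/-- The neighbours of `i` as a bit mask. -/
def row (i : ℕ) : ℕ := (adjBits >>> (120 * i)) % 2 ^ 120

/-- Boolean adjacency. -/
def A (i j : Fin 120) : Bool := (row i.1).testBit j.1

theorem A_symm : ∀ i j : Fin 120, A i j = A j i := by decide +kernel

theorem A_irrefl : ∀ i : Fin 120, A i i = false := by decide +kernel

/-- The orthogonality graph of the 120 root lines of `E8`. -/
def G : SimpleGraph (Fin 120) where
  Adj i j := A i j = true
  symm := ⟨fun i j h => by rw [A_symm]; exact h⟩
  loopless := ⟨fun i h => by rw [A_irrefl] at h; exact absurd h (by decide)⟩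

instance : DecidableRel G.Adj := fun i j => inferInstanceAs (Decidable (A i j = true))

/-- Number of ones among the lowest `n` bits. -/
def pc : ℕ → ℕ → ℕ
  | 0, _ => 0
  | n + 1, x => x % 2 + pc n (x / 2)

theorem pc_eq (n : ℕ) : ∀ x : ℕ,
    (∑ k : Fin n, if x.testBit k.1 = true then 1 else 0) = pc n x := by
  induction n with
  | zero => intro x; simp [pc]
  | succ n ih =>
    intro x
    rw [Fin.sum_univ_succ, pc, ← ih (x / 2)]
    congr 1
    · simp only [Fin.val_zero, Nat.testBit_zero, decide_eq_true_eq]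
      rcases Nat.mod_two_eq_zero_or_one x with h | h <;> simp [h]
    · refine Finset.sum_congr rfl fun k _ => ?_
      rw [Fin.val_succ, Nat.testBit_succ]

theorem pc_add (m : ℕ) : ∀ n x : ℕ, pc (n + m) x = pc n x + pc m (x / 2 ^ n) := by
  intro n
  induction n with
  | zero => intro x; simp [pc]
  | succ n ih =>
    intro x
    rw [show n + 1 + m = (n + m) + 1 by ring, pc, pc, ih, Nat.div_div_eq_div_mul, pow_succ,
      mul_comm (2 ^ n) 2]
    ring

theorem pc_mod (n : ℕ) : ∀ x : ℕ, pc n (x % 2 ^ n) = pc n x := by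
  induction n with
  | zero => intro x; simp [pc]
  | succ n ih =>
    intro x
    rw [pc, pc, ← ih (x / 2)]
    congr 1
    · rw [Nat.mod_mod_of_dvd]
      exact dvd_pow_self 2 (Nat.succ_ne_zero n)
    · congr 1
      rw [pow_succ, mul_comm, Nat.mod_mul_right_div_self]

/-- Number of ones in the lowest `n` bytes. -/
def pcb : ℕ → ℕ → ℕ
  | 0, _ => 0
  | n + 1, x => (byteBits >>> (4 * (x % 256))) % 16 + pcb n (x / 256)

theorem byte_ok : ∀ b : Fin 256, (byteBits >>> (4 * b.1)) % 16 = pc 8 b.1 := by decide +kernel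

theorem pcb_eq (n : ℕ) : ∀ x : ℕ, pcb n x = pc (8 * n) x := by
  induction n with
  | zero => intro x; simp [pc, pcb]
  | succ n ih =>
    intro x
    rw [pcb, ih, show 8 * (n + 1) = 8 + 8 * n by ring, pc_add]
    congr 1
    have := byte_ok ⟨x % 256, Nat.mod_lt _ (by norm_num)⟩
    simp only at this
    rw [this]
    exact pc_mod 8 x

theorem counts : ∀ i j : Fin 120, i < j →
    pcb 15 (row i.1 &&& row j.1) = if A i j = true then 30 else 36 := by decide +kernel

theorem degs : ∀ i : Fin 120, pcb 15 (row i.1) = 63 := by decide +kernel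

theorem card_common (i j : Fin 120) :
    Fintype.card (G.commonNeighbors i j) = pcb 15 (row i.1 &&& row j.1) := by
  rw [pcb_eq, ← pc_eq, Fintype.card_ofFinset, ← Finset.card_filter]
  congr 1
  ext k
  simp only [SimpleGraph.mem_commonNeighbors, Finset.mem_filter, Finset.mem_univ, true_and,
    Nat.testBit_and, Bool.and_eq_true]
  rfl

theorem degree_eq (i : Fin 120) : G.degree i = pcb 15 (row i.1) := by
  rw [pcb_eq, ← pc_eq, ← Finset.card_filter, ← SimpleGraph.card_neighborFinset_eq_degree]
  congr 1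
  ext k
  simp only [SimpleGraph.mem_neighborFinset, Finset.mem_filter, Finset.mem_univ, true_and]
  rfl

theorem counts' (i j : Fin 120) (h : i ≠ j) :
    Fintype.card (G.commonNeighbors i j) = if A i j = true then 30 else 36 := by
  rcases lt_or_gt_of_ne h with h | h
  · rw [card_common, counts i j h]
  · rw [card_common, Nat.land_comm, counts j i h, A_symm]

theorem srg : G.IsSRGWith 120 63 30 36 where
  card := by simp
  regular := fun i => by rw [degree_eq, degs]
  of_adj := fun i j h => by
    rw [counts' i j h.ne, if_pos (show A i j = true from h)]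
  of_not_adj := fun i j hne h => by
    rw [counts' i j hne, if_neg (show ¬ A i j = true from h)]

/-! ### The quantum colouring with eight colours -/

/-- Coordinates of (twice) the root with number `i`. -/
def root (i : Fin 120) (k : Fin 8) : ℤ :=
  (((rootBits >>> (3 * (8 * i.1 + k.1))) % 8 : ℕ) : ℤ) - 2

/-- Inner product, written out. -/
def dot (v w : Fin 8 → ℤ) : ℤ :=
  v 0 * w 0 + v 1 * w 1 + v 2 * w 2 + v 3 * w 3 + v 4 * w 4 + v 5 * w 5 + v 6 * w 6 + v 7 * w 7

theorem dot_eq (v w : Fin 8 → ℤ) : ∑ k, v k * w k = dot v w := by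
  rw [Fin.sum_univ_eight, dot]

theorem root_norm : ∀ i : Fin 120, dot (root i) (root i) = 8 := by decide +kernel

theorem root_orth : ∀ i j : Fin 120, A i j = true → dot (root i) (root j) = 0 := by
  decide +kernel

/-- The rows are the products of the octonion `v` with the eight basis octonions. -/
def oct (v : Fin 8 → ℤ) : Matrix (Fin 8) (Fin 8) ℤ :=
  !![v 0, v 1, v 2, v 3, v 4, v 5, v 6, v 7;
      -v 1, v 0, v 3, -v 2, v 5, -v 4, -v 7, v 6;
      -v 2, -v 3, v 0, v 1, v 6, v 7, -v 4, -v 5;
      -v 3, v 2, -v 1, v 0, v 7, -v 6, v 5, -v 4;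
      -v 4, -v 5, -v 6, -v 7, v 0, v 1, v 2, v 3;
      -v 5, v 4, -v 7, v 6, -v 1, v 0, -v 3, v 2;
      -v 6, v 7, v 4, -v 5, -v 2, v 3, v 0, -v 1;
      -v 7, -v 6, v 5, v 4, -v 3, -v 2, v 1, v 0]

theorem oct_row (v w : Fin 8 → ℤ) (c : Fin 8) :
    ∑ k, oct v c k * oct w c k = dot v w := by
  fin_cases c <;> simp [oct, Fin.sum_univ_eight, dot] <;> ring

theorem oct_col (v : Fin 8 → ℤ) (k l : Fin 8) :
    ∑ c, oct v c k * oct v c l = if k = l then dot v v else 0 := by
  fin_cases k <;> fin_cases l <;> simp [oct, Fin.sum_univ_eight, dot] <;> ring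

/-- The projection onto the line spanned by the `i`-th row. -/
noncomputable def proj (v : Fin 120) (i : Fin 8) : Matrix (Fin 8) (Fin 8) ℂ :=
  Matrix.of fun k l => ((oct (root v) i k * oct (root v) i l : ℤ) : ℂ) / 8

/-- The quantum 8-colouring in dimension 8. -/
noncomputable def coloring : QuantumColoring G 8 8 where
  P := proj
  isHermitian := by
    intro v i
    ext k l
    simp only [proj, Matrix.conjTranspose_apply, Matrix.of_apply]
    rw [mul_comm (oct (root v) i l)]
    simp
  isIdempotent := by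
    intro v i
    ext k l
    simp only [proj, Matrix.mul_apply, Matrix.of_apply]
    have h := oct_row (root v) (root v) i
    rw [root_norm] at h
    have h' : (∑ m, ((oct (root v) i m : ℤ) : ℂ) * ((oct (root v) i m : ℤ) : ℂ)) = 8 := by
      exact_mod_cast h
    calc (∑ m, ((oct (root v) i k * oct (root v) i m : ℤ) : ℂ) / 8 *
          (((oct (root v) i m * oct (root v) i l : ℤ) : ℂ) / 8))
        = ((oct (root v) i k : ℤ) : ℂ) * ((oct (root v) i l : ℤ) : ℂ) / 64 *
          (∑ m, ((oct (root v) i m : ℤ) : ℂ) * ((oct (root v) i m : ℤ) : ℂ)) := by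
          rw [Finset.mul_sum]
          refine Finset.sum_congr rfl fun m _ => ?_
          push_cast
          ring
      _ = ((oct (root v) i k * oct (root v) i l : ℤ) : ℂ) / 8 := by
          rw [h']
          push_cast
          ring
  sum_eq_one := by
    intro v
    ext k l
    simp only [Matrix.sum_apply, proj, Matrix.of_apply]
    rw [← Finset.sum_div]
    have h := oct_col (root v) k l
    rw [root_norm] at h
    have h' : (∑ c, ((oct (root v) c k * oct (root v) c l : ℤ) : ℂ)) =
        if k = l then 8 else 0 := by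
      rw [← Int.cast_sum, h]
      split_ifs <;> simp
    rw [h', Matrix.one_apply]
    split_ifs <;> simp
  orthogonal := by
    intro v w hvw i
    ext k l
    simp only [proj, Matrix.mul_apply, Matrix.of_apply, Matrix.zero_apply]
    have h := oct_row (root v) (root w) i
    rw [root_orth v w hvw] at h
    have h' : (∑ m, ((oct (root v) i m : ℤ) : ℂ) * ((oct (root w) i m : ℤ) : ℂ)) = 0 := by
      exact_mod_cast h
    calc (∑ m, ((oct (root v) i k * oct (root v) i m : ℤ) : ℂ) / 8 *
          (((oct (root w) i m * oct (root w) i l : ℤ) : ℂ) / 8))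
        = ((oct (root v) i k : ℤ) : ℂ) * ((oct (root w) i l : ℤ) : ℂ) / 64 *
          (∑ m, ((oct (root v) i m : ℤ) : ℂ) * ((oct (root w) i m : ℤ) : ℂ)) := by
          rw [Finset.mul_sum]
          refine Finset.sum_congr rfl fun m _ => ?_
          push_cast
          ring
      _ = 0 := by rw [h', mul_zero]

/-! ### A clique forces many colours -/

open scoped ComplexOrder in
theorem trace_nonneg {d : ℕ} (X : Matrix (Fin d) (Fin d) ℂ) (h1 : X.IsHermitian)
    (h2 : X * X = X) : 0 ≤ (Matrix.trace X).re := by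
  have h3 : X = X.conjTranspose * X := by rw [h1.eq, h2]
  have h4 : 0 ≤ Matrix.trace X := by
    rw [h3]
    exact (Matrix.posSemidef_conjTranspose_mul_self X).trace_nonneg
  exact (Complex.le_def.1 h4).1

theorem clique_le {V : Type} (G : SimpleGraph V) {m c d : ℕ} (hd : 1 ≤ d) (f : Fin m → V)
    (hf : ∀ a b, a ≠ b → G.Adj (f a) (f b)) (q : QuantumColoring G c d) : m ≤ c := by
  -- the sum over the clique of the projections of one colour is a projection
  have hS : ∀ i, (∑ a, q.P (f a) i) * (∑ a, q.P (f a) i) = ∑ a, q.P (f a) i := by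
    intro i
    rw [Finset.sum_mul_sum]
    refine Finset.sum_congr rfl fun a _ => ?_
    rw [Finset.sum_eq_single a]
    · exact q.isIdempotent _ _
    · intro b _ hb
      exact q.orthogonal _ _ (hf a b hb.symm) i
    · intro h
      exact absurd (Finset.mem_univ a) h
  have hH : ∀ i, (∑ a, q.P (f a) i).IsHermitian := by
    intro i
    unfold Matrix.IsHermitian
    rw [Matrix.conjTranspose_sum]
    exact Finset.sum_congr rfl fun a _ => q.isHermitian _ _
  have htr : ∀ i, (Matrix.trace (∑ a, q.P (f a) i)).re ≤ d := by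
    intro i
    have h1 : (1 - ∑ a, q.P (f a) i).IsHermitian := Matrix.isHermitian_one.sub (hH i)
    have h2 : (1 - ∑ a, q.P (f a) i) * (1 - ∑ a, q.P (f a) i) = 1 - ∑ a, q.P (f a) i := by
      rw [mul_sub, sub_mul, sub_mul, hS]
      simp
    have h3 := trace_nonneg _ h1 h2
    rw [Matrix.trace_sub, Matrix.trace_one] at h3
    simp at h3
    simpa using h3
  have hsum : ∑ i, (Matrix.trace (∑ a, q.P (f a) i)).re = (m : ℝ) * d := by
    have : ∑ i, Matrix.trace (∑ a, q.P (f a) i) = (m : ℂ) * d := by
      rw [← Matrix.trace_sum, Finset.sum_comm]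
      simp only [q.sum_eq_one]
      rw [Finset.sum_const, Matrix.trace_smul, Matrix.trace_one]
      simp
    rw [← Complex.re_sum, this]
    simp
  have hle : (m : ℝ) * d ≤ (c : ℝ) * d := by
    rw [← hsum]
    calc ∑ i, (Matrix.trace (∑ a, q.P (f a) i)).re ≤ ∑ _i : Fin c, (d : ℝ) :=
          Finset.sum_le_sum fun i _ => htr i
      _ = (c : ℝ) * d := by simp
  have hd' : (0 : ℝ) < d := by exact_mod_cast hd
  exact_mod_cast le_of_mul_le_mul_right hle hd'

/-- A clique of size eight. -/
def cl : Fin 8 → Fin 120 := ![0, 1, 26, 27, 44, 45, 54, 55]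

theorem cl_adj : ∀ a b, a ≠ b → G.Adj (cl a) (cl b) := by decide +kernel

theorem quantum_eq : quantumChromaticNumber G = 8 := by
  unfold quantumChromaticNumber
  apply le_antisymm
  · exact iInf₂_le_of_le 8 ⟨by norm_num, 8, by norm_num, ⟨coloring⟩⟩ le_rfl
  · refine le_iInf₂ fun c hc => ?_
    obtain ⟨_, d, hd, ⟨q⟩⟩ := hc
    exact_mod_cast clique_le G hd cl cl_adj q

/-! ### Independent sets have at most eight vertices -/

/-- The class modulo two of the root with number `i`, in a hyperbolic basis. -/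
def cvec (i : Fin 120) (k : Fin 8) : ZMod 2 :=
  if codeBits.testBit (8 * i.1 + k.1) = true then 1 else 0

/-- The quadratic form. -/
def Q (x : Fin 8 → ZMod 2) : ZMod 2 := x 0 * x 1 + x 2 * x 3 + x 4 * x 5 + x 6 * x 7

/-- The polar form of `Q`. -/
def B (x y : Fin 8 → ZMod 2) : ZMod 2 :=
  x 0 * y 1 + x 1 * y 0 + x 2 * y 3 + x 3 * y 2 + x 4 * y 5 + x 5 * y 4 + x 6 * y 7 + x 7 * y 6

theorem Q_cvec : ∀ i : Fin 120, Q (cvec i) = 1 := by decide +kernel

theorem B_cvec : ∀ i j : Fin 120, i ≠ j → A i j = false → B (cvec i) (cvec j) = 1 := by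
  decide +kernel

theorem two_eq : (2 : ZMod 2) = 0 := by decide

theorem B_self (x : Fin 8 → ZMod 2) : B x x = 0 := by
  have : B x x = 2 * (x 0 * x 1 + x 2 * x 3 + x 4 * x 5 + x 6 * x 7) := by unfold B; ring
  rw [this, two_eq, zero_mul]

theorem Q_add (x y : Fin 8 → ZMod 2) : Q (x + y) = Q x + Q y + B x y := by
  simp only [Q, B, Pi.add_apply]; ring

/-- `B` as a linear map in the first variable. -/
def Bl (y : Fin 8 → ZMod 2) : (Fin 8 → ZMod 2) →ₗ[ZMod 2] ZMod 2 where
  toFun x := B x y
  map_add' x x' := by simp only [B, Pi.add_apply]; ring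
  map_smul' a x := by simp only [B, Pi.smul_apply, smul_eq_mul, RingHom.id_apply]; ring

theorem B_comm (x y : Fin 8 → ZMod 2) : B x y = B y x := by unfold B; ring

theorem Q_sum (T : Finset (Fin 120)) (hT : ∀ i ∈ T, ∀ j ∈ T, i ≠ j → A i j = false) :
    Q (∑ i ∈ T, cvec i) = ((T.card * (T.card + 1) / 2 : ℕ) : ZMod 2) := by
  induction T using Finset.induction_on with
  | empty => simp [Q]
  | insert a T ha ih =>
    have ih' := ih fun i hi j hj h => hT i (Finset.mem_insert_of_mem hi) j
      (Finset.mem_insert_of_mem hj) h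
    have hB : B (cvec a) (∑ i ∈ T, cvec i) = (T.card : ZMod 2) := by
      rw [B_comm]
      change Bl (cvec a) (∑ i ∈ T, cvec i) = _
      rw [map_sum]
      have : ∀ i ∈ T, Bl (cvec a) (cvec i) = 1 := by
        intro i hi
        have hne : i ≠ a := fun h => ha (h ▸ hi)
        exact B_cvec i a hne (hT i (Finset.mem_insert_of_mem hi) a (Finset.mem_insert_self a T) hne)
      rw [Finset.sum_congr rfl this]
      simp
    rw [Finset.sum_insert ha, Q_add, Q_cvec, ih', hB, Finset.card_insert_of_notMem ha]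
    have h2 : (T.card + 1) * (T.card + 1 + 1) / 2 = T.card * (T.card + 1) / 2 + (T.card + 1) := by
      have : (T.card + 1) * (T.card + 1 + 1) = T.card * (T.card + 1) + (T.card + 1) * 2 := by ring
      rw [this, Nat.add_mul_div_right _ _ (by norm_num)]
    rw [h2]
    push_cast
    ring

theorem indep_le (S : Finset (Fin 120)) (hS : ∀ i ∈ S, ∀ j ∈ S, i ≠ j → A i j = false) :
    S.card ≤ 8 := by
  by_contra hcon
  obtain ⟨T, hTS, hT9⟩ := Finset.exists_subset_card_eq (show 9 ≤ S.card by omega)
  have hT : ∀ i ∈ T, ∀ j ∈ T, i ≠ j → A i j = false := fun i hi j hj h =>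
    hS i (hTS hi) j (hTS hj) h
  have hdep : ¬ LinearIndependent (ZMod 2) (fun i : T => cvec i.1) := by
    intro h
    have := h.fintype_card_le_finrank
    simp [hT9] at this
  obtain ⟨g, hg, i₀, hi₀⟩ := Fintype.not_linearIndependent_iff.1 hdep
  -- all coefficients agree with their sum
  have hall : ∀ j : T, g j = ∑ i, g i := by
    intro j
    have h1 : Bl (cvec j.1) (∑ i, g i • cvec i.1) = 0 := by rw [hg, map_zero]
    rw [map_sum] at h1
    have h2 : ∀ i : T, Bl (cvec j.1) (g i • cvec i.1) = g i + (if i = j then g i else 0) := by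
      intro i
      rw [map_smul, smul_eq_mul]
      change g i * B (cvec i.1) (cvec j.1) = _
      by_cases hij : i = j
      · subst hij
        rw [B_self, mul_zero, if_pos rfl, ← two_mul, two_eq, zero_mul]
      · rw [B_cvec i.1 j.1 (fun h => hij (Subtype.ext h))
          (hT i.1 i.2 j.1 j.2 (fun h => hij (Subtype.ext h))), mul_one, if_neg hij, add_zero]
    rw [Finset.sum_congr rfl fun i _ => h2 i, Finset.sum_add_distrib, Finset.sum_ite_eq' ] at h1
    simp only [Finset.mem_univ, if_true] at h1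
    have h3 : g j + g j = 0 := by rw [← two_mul, two_eq, zero_mul]
    calc g j = g j + (∑ i, g i + g j) := by rw [h1, add_zero]
      _ = ∑ i, g i + (g j + g j) := by ring
      _ = ∑ i, g i := by rw [h3, add_zero]
  have hs : ∑ i, g i = 1 := by
    have h1 : ∑ i, g i ≠ 0 := by rw [← hall i₀]; exact hi₀
    have h2 : ∀ x : ZMod 2, x ≠ 0 → x = 1 := by decide
    exact h2 _ h1
  have hzero : ∑ i ∈ T, cvec i = 0 := by
    rw [← Finset.sum_coe_sort, ← hg]
    exact Finset.sum_congr rfl fun i _ => by rw [hall i, hs, one_smul]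
  have hQ := Q_sum T hT
  rw [hzero, hT9] at hQ
  revert hQ
  decide

theorem fifteen_le : 15 ≤ G.chromaticNumber := by
  by_contra hcon
  rw [not_le] at hcon
  have h14 : G.chromaticNumber ≤ (14 : ℕ) := by
    have : G.chromaticNumber < ((14 : ℕ) : ℕ∞) + 1 := by
      refine lt_of_lt_of_le hcon ?_
      norm_num
    exact Order.lt_add_one_iff_of_not_isMax (by simp) |>.1 this
  rw [SimpleGraph.chromaticNumber_le_iff_colorable] at h14
  obtain ⟨C⟩ := h14
  have hclass : ∀ c : Fin 14, (Finset.univ.filter fun i : Fin 120 => C i = c).card ≤ 8 := by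
    intro c
    apply indep_le
    intro i hi j hj hij
    rw [Finset.mem_filter] at hi hj
    by_contra hA
    have hadj : G.Adj i j := by
      change A i j = true
      simpa using hA
    exact C.valid hadj (hi.2.trans hj.2.symm)
  have hcard := Finset.card_eq_sum_card_fiberwise
    (f := fun i : Fin 120 => C i) (s := Finset.univ) (t := Finset.univ)
    (fun _ _ => Finset.mem_univ _)
  have : (Finset.univ : Finset (Fin 120)).card ≤ ∑ _c : Fin 14, 8 := by
    rw [hcard]
    exact Finset.sum_le_sum fun c _ => hclass c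
  simp at this

/-- There is a strongly regular graph (with parameters `(120, 63, 30, 36)`) whose quantum
chromatic number is `8` and whose chromatic number is at least `15`. -/
theorem result :
    ∃ G : SimpleGraph (Fin 120), ∃ _ : DecidableRel G.Adj,
      G.IsSRGWith 120 63 30 36 ∧ quantumChromaticNumber G = 8 ∧ 15 ≤ G.chromaticNumber :=
  ⟨G, inferInstance, srg, quantum_eq, fifteen_le⟩

end Pool.Agent.Results.MP_75a6b7_co.E8Graph
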